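import Pool.Agent.H7.TRI.Stmts

/-! Row PAR of board tri. -/

set_option autoImplicit false

open Finset

namespace Pool.TRI

theorem PAR_thm (h1 : RCHStmt) : PARStmt := by
  classical
  intro V _ _ G d m hyp C hC
  have hx := (h1 V G d m hyp C hC).2.2.2.2.2.1
  have e1 : XX G C = Iso G C ∪ (Lf G C ∪ Jc G C) := by
    ext w
    rw [mem_union, mem_union, mem_Iso, mem_Lf, mem_Jc]
    constructor
    · intro hw
      have hwC := (mem_XX.1 hw).1
      have h2 := (hx w hwC).1 hw
      by_cases h3 : 2 ≤ df G C w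
      · exact Or.inr (Or.inr ⟨hwC, h3⟩)
      · have h4 : df G C w = 1 := by omega
        by_cases h5 : ∀ u ∈ C \ cn G w, df G C u = 1
        · exact Or.inl ⟨hwC, h4, h5⟩
        · push Not at h5
          exact Or.inr (Or.inl ⟨hwC, h4, h5⟩)
    · rintro (⟨h2, h3, -⟩ | ⟨h2, h3, -⟩ | ⟨h2, h3⟩)
      · exact (hx w h2).2 (by omega)
      · exact (hx w h2).2 (by omega)
      · exact (hx w h2).2 (by omega)
  have d1 : Disjoint (Lf G C) (Jc G C) := by
    rw [Finset.disjoint_left]
    intro w hw hw'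
    rw [mem_Lf] at hw
    rw [mem_Jc] at hw'
    omega
  have d2 : Disjoint (Iso G C) (Lf G C ∪ Jc G C) := by
    rw [Finset.disjoint_left]
    intro w hw hw'
    rw [mem_Iso] at hw
    rw [mem_union, mem_Lf, mem_Jc] at hw'
    rcases hw' with ⟨-, -, u, hu, hu'⟩ | ⟨-, h⟩
    · exact hu' (hw.2.2 u hu)
    · omega
  have e2 : C = SS G C ∪ XX G C := by
    ext w
    rw [mem_union, mem_SS, mem_XX]
    by_cases h : cn G w = C <;> simp [h]
  have d3 : Disjoint (SS G C) (XX G C) := by
    rw [Finset.disjoint_left]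
    intro w hw hw'
    exact (mem_XX.1 hw').2 (mem_SS.1 hw).2
  have s1 : ∀ f : V → ℤ, ∑ w ∈ XX G C, f w
      = ∑ w ∈ Iso G C, f w + ∑ w ∈ Lf G C, f w + ∑ w ∈ Jc G C, f w := by
    intro f
    rw [e1, sum_union d2, sum_union d1, add_assoc]
  refine ⟨fun f => ?_, s1, ?_, ?_, ?_, ?_⟩
  · have h2 : ∑ w ∈ C, f w = ∑ w ∈ SS G C ∪ XX G C, f w := by rw [← e2]
    rw [h2, sum_union d3, s1 f]
    ring
  · rw [e1, card_union_of_disjoint d2, card_union_of_disjoint d1, add_assoc]
  · rw [e1]; exact subset_union_left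
  · rw [e1]; exact subset_union_left.trans subset_union_right
  · rw [e1]; exact subset_union_right.trans subset_union_right

end Pool.TRI
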